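import Pool.Agent.H43.Niche.Main

/-!
# MP_e11724_co: a graph with niche number three

An explicit graph on 8 vertices with 13 edges has niche number exactly 3.
-/

set_option autoImplicit false

namespace Pool.Agent.Results.MP_e11724_co.NicheNumberThree

/-- A digraph is acyclic if no vertex is the end of a directed walk of positive length starting at
this vertex (in particular there are no loops). -/
def IsAcyclic {W : Type} (D : Digraph W) : Prop := ∀ x : W, ¬ Relation.TransGen D.Adj x x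

/-- The niche graph of a digraph: two distinct vertices are adjacent if they have a common prey or a
common predator. -/
def nicheGraph {W : Type} (D : Digraph W) : SimpleGraph W where
  Adj x y := x ≠ y ∧ ((∃ a, D.Adj x a ∧ D.Adj y a) ∨ ∃ b, D.Adj b x ∧ D.Adj b y)
  symm := ⟨by
    rintro x y ⟨h1, h2⟩
    refine ⟨h1.symm, ?_⟩
    rcases h2 with ⟨a, ha⟩ | ⟨b, hb⟩
    · exact Or.inl ⟨a, ha.2, ha.1⟩
    · exact Or.inr ⟨b, hb.2, hb.1⟩⟩
  loopless := ⟨fun x h => h.1 rfl⟩

/-- A graph is a niche graph if it is isomorphic to the niche graph of a finite acyclic digraph. -/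
def IsNicheGraph {V : Type} (G : SimpleGraph V) : Prop :=
  ∃ (W : Type) (_ : Finite W) (D : Digraph W), IsAcyclic D ∧ Nonempty (G ≃g nicheGraph D)

/-- The disjoint union of `G` with `k` isolated vertices. -/
def addIsolated {V : Type} (G : SimpleGraph V) (k : ℕ) : SimpleGraph (V ⊕ Fin k) where
  Adj x y := ∃ a b : V, x = Sum.inl a ∧ y = Sum.inl b ∧ G.Adj a b
  symm := ⟨by
    rintro x y ⟨a, b, hx, hy, h⟩
    exact ⟨b, a, hy, hx, h.symm⟩⟩
  loopless := ⟨by
    rintro x ⟨a, b, hx, hy, h⟩
    have : a = b := Sum.inl_injective (hx.symm.trans hy)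
    subst this
    exact G.loopless.irrefl a h⟩

/-- The niche number: the least `k` such that `G` together with `k` isolated vertices is a niche
graph, and `⊤` if there is no such `k`. -/
noncomputable def nicheNumber {V : Type} (G : SimpleGraph V) : ℕ∞ :=
  sInf {m : ℕ∞ | ∃ k : ℕ, m = k ∧ IsNicheGraph (addIsolated G k)}

/-- The 13 edges of the example. -/
def edgeList : List (ℕ × ℕ) :=
  [(0, 2), (0, 3), (0, 5), (0, 7), (1, 2), (1, 3), (1, 4), (1, 6), (2, 7), (3, 6), (4, 5), (4, 7),
    (5, 6)]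

open Pool.Agent.H43.Niche in
/-- There is a graph whose niche number is 3. -/
theorem result : ∃ G : SimpleGraph (Fin 8),
    (∀ a b : Fin 8, G.Adj a b ↔
      ((a : ℕ), (b : ℕ)) ∈ edgeList ∨ ((b : ℕ), (a : ℕ)) ∈ edgeList) ∧
    nicheNumber G = 3 := by
  refine ⟨Pool.Agent.H43.Niche.G, by decide +kernel, ?_⟩
  have h3 : IsNicheGraph (addIsolated Pool.Agent.H43.Niche.G 3) := by
    refine ⟨Fin 8 ⊕ Fin 3, inferInstance, D3, D3_acyclic, ⟨⟨Equiv.refl _, ?_⟩⟩⟩
    intro x y
    show (x ≠ y ∧ ((∃ a, D3.Adj x a ∧ D3.Adj y a) ∨ ∃ b, D3.Adj b x ∧ D3.Adj b y)) ↔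
      ∃ a b : Fin 8, x = Sum.inl a ∧ y = Sum.inl b ∧ Pool.Agent.H43.Niche.G.Adj a b
    constructor
    · rintro ⟨hne, h⟩
      apply (D3_niche x y hne).1
      rcases h with ⟨a, ha⟩ | ⟨b, hb⟩
      · exact ⟨a, Or.inl ha⟩
      · exact ⟨b, Or.inr hb⟩
    · intro h
      have hne : x ≠ y := by
        rintro rfl
        obtain ⟨a, b, hx, hy, h⟩ := h
        have : a = b := Sum.inl_injective (hx.symm.trans hy)
        subst this
        exact Pool.Agent.H43.Niche.G.loopless.irrefl a h
      refine ⟨hne, ?_⟩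
      obtain ⟨z, hz | hz⟩ := (D3_niche x y hne).2 h
      · exact Or.inl ⟨z, hz⟩
      · exact Or.inr ⟨z, hz⟩
  have hsmall : ∀ k : ℕ, k ≤ 2 → ¬ IsNicheGraph (addIsolated Pool.Agent.H43.Niche.G k) := by
    rintro k hk ⟨W, _, D, hD, ⟨f⟩⟩
    apply no_small k hk
    refine ⟨⟨fun x y => D.Adj (f x) (f y)⟩, ?_, ?_⟩
    · intro x hx
      have key : ∀ a b, Relation.TransGen (fun x y => D.Adj (f x) (f y)) a b →
          Relation.TransGen D.Adj (f a) (f b) := by
        intro a b hab
        induction hab with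
        | single h => exact Relation.TransGen.single h
        | tail _ h ih => exact Relation.TransGen.tail ih h
      exact hD (f x) (key x x hx)
    · intro x y hne
      have hf : (nicheGraph D).Adj (f x) (f y) ↔
          ∃ a b : Fin 8, x = Sum.inl a ∧ y = Sum.inl b ∧ Pool.Agent.H43.Niche.G.Adj a b :=
        f.map_rel_iff
      rw [← hf]
      constructor
      · rintro ⟨z, hz | hz⟩
        · exact ⟨fun h => hne (f.injective h), Or.inl ⟨f z, hz⟩⟩
        · exact ⟨fun h => hne (f.injective h), Or.inr ⟨f z, hz⟩⟩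
      · rintro ⟨-, ⟨a, ha⟩ | ⟨b, hb⟩⟩
        · obtain ⟨z, rfl⟩ := f.surjective a
          exact ⟨z, Or.inl ha⟩
        · obtain ⟨z, rfl⟩ := f.surjective b
          exact ⟨z, Or.inr hb⟩
  apply le_antisymm
  · exact sInf_le ⟨3, rfl, h3⟩
  · apply le_sInf
    rintro m ⟨k, rfl, hk⟩
    have h1 : 3 ≤ k := by
      by_contra hlt
      exact hsmall k (by omega) hk
    exact_mod_cast h1

end Pool.Agent.Results.MP_e11724_co.NicheNumberThree
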